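import Pool.Agent.RAT.T12.Sum
import Pool.Agent.RAT.E.Main

/-!
Project RAT, lattice `(3,12^2)`: comparison of `bn (N + n)` with `(1/xx)^n bn N` for `n^5 ≤ N`, from the polynomial
bound of the honeycomb lattice.
-/

namespace Pool.Agent.RAT.T12

open Pool.Agent.Hhelper14.SAW Pool.Agent.Hhelper64.T12 Finset

lemma term_eq (k n : ℕ) : AA k * pp k n = (an k : ℝ) * cnt k n * xx ^ n := by
  have := pow_pos mu_pos k
  unfold AA pp
  field_simp

lemma SS_s {n M : ℕ} (h : n < M) : (∑ k ∈ range M, (an k : ℝ) * cnt k n) * xx ^ n = SS n := by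
  rw [← SS_eq h, sum_mul]
  exact sum_congr rfl fun k _ => (term_eq k n).symm

lemma SS_le_bn (n : ℕ) : 2 / 3 * SS n ≤ bn n * xx ^ n := by
  have hx := xx_pos
  have h1 : (2 : ℝ) * ∑ k ∈ range (n + 1), (an k : ℝ) * cnt k n ≤ 3 * bn n := by
    exact_mod_cast lower n
  rw [← SS_s (Nat.lt_succ_self n)]
  have h2 := mul_le_mul_of_nonneg_right h1 (pow_pos hx n).le
  linarith

lemma SS_nonneg (n : ℕ) : 0 ≤ SS n :=
  sum_nonneg fun k _ => mul_nonneg (zero_le_one.trans (AA_ge k)) (pp_nonneg _ _)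

lemma nw_sum {n m : ℕ} (hm : 3 ≤ m) (hmn : m ≤ n) :
    (∑ k ∈ range (n + 1), (nw k : ℝ) * cnt k m) * xx ^ m ≤ 6 * (SS (m - 2) + SS (m - 3)) := by
  have hx := xx_pos
  have hx1 := xx_lt
  rw [sum_range_succ', cnt_zero, if_neg (by omega)]
  simp only [Nat.cast_zero, mul_zero, add_zero]
  have h1 : ∀ k ∈ range n, (nw (k + 1) : ℝ) * cnt (k + 1) m =
      6 * ((an k : ℝ) * cnt k (m - 2) + (an k : ℝ) * cnt k (m - 3)) := by
    intro k _
    rw [cnt_succ, if_pos (by omega), if_pos hm]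
    unfold nw
    push_cast
    ring
  rw [sum_congr rfl h1, ← mul_sum, sum_add_distrib]
  have h2 := SS_s (n := m - 2) (M := n) (by omega)
  have h3 := SS_s (n := m - 3) (M := n) (by omega)
  have e2 : xx ^ m = xx ^ 2 * xx ^ (m - 2) := by rw [← pow_add]; congr 1; omega
  have e3 : xx ^ m = xx ^ 3 * xx ^ (m - 3) := by rw [← pow_add]; congr 1; omega
  have h4 := SS_nonneg (m - 2)
  have h5 := SS_nonneg (m - 3)
  have hx2 : xx ^ 2 ≤ 1 := pow_le_one₀ hx.le hx1.le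
  have hx3 : xx ^ 3 ≤ 1 := pow_le_one₀ hx.le hx1.le
  calc 6 * (∑ k ∈ range n, (an k : ℝ) * cnt k (m - 2) + ∑ k ∈ range n, (an k : ℝ) * cnt k (m - 3)) * xx ^ m
      = 6 * ((∑ k ∈ range n, (an k : ℝ) * cnt k (m - 2)) * xx ^ m +
          (∑ k ∈ range n, (an k : ℝ) * cnt k (m - 3)) * xx ^ m) := by ring
    _ = 6 * (xx ^ 2 * SS (m - 2) + xx ^ 3 * SS (m - 3)) := by
        rw [← h2, ← h3]
        nth_rewrite 1 [e2]
        nth_rewrite 1 [e3]
        ring
    _ ≤ _ := by nlinarith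

lemma NC_le {n : ℕ} (hn : 5 ≤ n) {S : ℝ} (hS : ∀ i : ℕ, 2 ≤ i → i ≤ 5 → SS (n - i) ≤ S) :
    ((NC n).ncard : ℝ) * xx ^ n ≤ 216 * S := by
  have hx := xx_pos
  have hx1 := xx_lt
  have h1 : ((NC n).ncard : ℝ) ≤ ∑ j ∈ range 3, if j ≤ n then
      6 * ∑ k ∈ range (n + 1), (nw k : ℝ) * cnt k (n - j) else 0 := by
    have := NC_card n
    have h2 : (((NC n).ncard : ℕ) : ℝ) ≤ ((∑ j ∈ range 3, if j ≤ n then
      6 * ∑ k ∈ range (n + 1), nw k * cnt k (n - j) else 0 : ℕ) : ℝ) := by exact_mod_cast this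
    refine h2.trans (le_of_eq ?_)
    push_cast
    rfl
  have h2 : ∀ j ∈ range 3, (if j ≤ n then 6 * ∑ k ∈ range (n + 1), (nw k : ℝ) * cnt k (n - j) else 0) * xx ^ n ≤
      72 * S := by
    intro j hj
    rw [mem_range] at hj
    rw [if_pos (by omega)]
    have h3 := nw_sum (n := n) (m := n - j) (by omega) (by omega)
    have h4 := hS (j + 2) (by omega) (by omega)
    have h5 := hS (j + 3) (by omega) (by omega)
    rw [show n - (j + 2) = n - j - 2 by omega] at h4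
    rw [show n - (j + 3) = n - j - 3 by omega] at h5
    have e1 : xx ^ n = xx ^ (n - j) * xx ^ j := by rw [← pow_add]; congr 1; omega
    have h6 : xx ^ j ≤ 1 := pow_le_one₀ hx.le hx1.le
    have h7 : 0 ≤ (∑ k ∈ range (n + 1), (nw k : ℝ) * cnt k (n - j)) * xx ^ (n - j) := by positivity
    calc 6 * (∑ k ∈ range (n + 1), (nw k : ℝ) * cnt k (n - j)) * xx ^ n
        = 6 * (((∑ k ∈ range (n + 1), (nw k : ℝ) * cnt k (n - j)) * xx ^ (n - j)) * xx ^ j) := by rw [e1]; ring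
      _ ≤ 6 * (((∑ k ∈ range (n + 1), (nw k : ℝ) * cnt k (n - j)) * xx ^ (n - j)) * 1) := by gcongr
      _ ≤ 72 * S := by linarith
  have h3 := mul_le_mul_of_nonneg_right h1 (pow_pos hx n).le
  refine h3.trans ?_
  rw [sum_mul]
  refine (sum_le_sum h2).trans (le_of_eq ?_)
  rw [sum_const, card_range, nsmul_eq_mul]
  push_cast
  ring

theorem bn_le_SS (h : ∃ C : ℝ, 0 < C ∧ ∀ n : ℕ, 1 ≤ n → (an n : ℝ) ≤ C * (n : ℝ) ^ C * mu ^ n) :
    ∃ N₁ : ℕ, ∀ n : ℕ, N₁ ≤ n → bn n * xx ^ n ≤ 4320 * SS n := by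
  obtain ⟨N₀, hN₀⟩ := SS_cmp h
  have hx := xx_pos
  have hx1 := xx_lt
  have key : ∀ n i : ℕ, N₀ + 4000 ≤ n → 1 ≤ i → i ≤ 5 → SS (n - i) ≤ 4 * SS n := by
    intro n i hn hi hi5
    have h1 : i ^ 5 ≤ 5 ^ 5 := Nat.pow_le_pow_left hi5 5
    have h2 := (hN₀ i (n - i) hi (by omega) (by omega)).1
    rw [show n - i + i = n by omega] at h2
    linarith
  refine ⟨N₀ + 4002, fun n hn => ?_⟩
  obtain ⟨m, rfl⟩ : ∃ m, n = m + 1 := ⟨n - 1, by omega⟩
  have h1 : (bn (m + 1) : ℝ) ≤ (NC (m + 1)).ncard + (NC m).ncard := by exact_mod_cast upper_split m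
  have h2 := NC_le (n := m + 1) (by omega) (S := 4 * SS (m + 1)) fun i hi hi5 =>
    key (m + 1) i (by omega) (by omega) hi5
  have h3 := NC_le (n := m) (by omega) (S := 4 * SS m) fun i hi hi5 => key m i (by omega) (by omega) hi5
  have h4 := key (m + 1) 1 (by omega) le_rfl (by norm_num)
  rw [show m + 1 - 1 = m by omega] at h4
  have h5 := mul_le_mul_of_nonneg_right h1 (pow_pos hx (m + 1)).le
  have h6 : ((NC m).ncard : ℝ) * xx ^ (m + 1) ≤ ((NC m).ncard : ℝ) * xx ^ m := by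
    exact mul_le_mul_of_nonneg_left (pow_le_pow_of_le_one hx.le hx1.le (Nat.le_succ m)) (Nat.cast_nonneg _)
  rw [add_mul] at h5
  linarith

/-- **The comparison on `(3,12^2)`.** -/
theorem cmp_bn (h : ∃ C : ℝ, 0 < C ∧ ∀ n : ℕ, 1 ≤ n → (an n : ℝ) ≤ C * (n : ℝ) ^ C * mu ^ n) :
    Cmp (fun n => (bn n : ℝ)) (1 / xx) := by
  obtain ⟨N₀, hN₀⟩ := SS_cmp h
  obtain ⟨N₁, hN₁⟩ := bn_le_SS h
  have hx := xx_pos
  set M := N₀ + N₁ with hM
  set F : ℝ := ∑ i ∈ range (M + 1), (bn i : ℝ) * xx ^ i with hF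
  have hFi : ∀ i ≤ M, (bn i : ℝ) ≤ F * (1 / xx) ^ i := by
    intro i hi
    have h1 : (bn i : ℝ) * xx ^ i ≤ F :=
      single_le_sum (f := fun i => (bn i : ℝ) * xx ^ i) (fun _ _ => by positivity) (by rw [mem_range]; omega)
    have h2 : (1 / xx) ^ i * xx ^ i = 1 := by rw [← mul_pow, one_div_mul_cancel hx.ne', one_pow]
    calc (bn i : ℝ) = (bn i * xx ^ i) * (1 / xx) ^ i := by rw [mul_assoc, mul_comm (xx ^ i), h2, mul_one]
      _ ≤ F * (1 / xx) ^ i := mul_le_mul_of_nonneg_right h1 (by positivity)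
  have hF1 : 1 ≤ F := by
    have := hFi 0 (Nat.zero_le _)
    rw [bn_zero] at this
    simpa using this
  have hF0 : 0 < F := by linarith
  refine ⟨min (1 / 25920) (1 / F), max 19440 F, by positivity, by positivity, fun n N hn hnN => ?_⟩
  have hxn : 0 < xx ^ n := pow_pos hx n
  have hxN : 0 < xx ^ N := pow_pos hx N
  have hyn : (1 / xx) ^ n * xx ^ n = 1 := by rw [← mul_pow, one_div_mul_cancel hx.ne', one_pow]
  have hy : 0 < (1 / xx) ^ n := by positivity
  have hbN := bn_pos N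
  have hbNn := bn_pos (N + n)
  rcases Nat.lt_or_ge N M with hNM | hNM
  · -- small lengths
    have hnN' : n ≤ N := (Nat.le_self_pow (by norm_num) n).trans hnN
    constructor
    · have h1 := pow_le_bn (N + n) (by omega)
      have h2 := hFi N (by omega)
      have h3 : (1 / xx) ^ n * bn N ≤ F * bn (N + n) := by
        calc (1 / xx) ^ n * bn N ≤ (1 / xx) ^ n * (F * (1 / xx) ^ N) := by gcongr
          _ = F * (1 / xx) ^ (N + n) := by rw [pow_add]; ring
          _ ≤ F * bn (N + n) := by gcongr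
      calc min (1 / 25920) (1 / F) * (1 / xx) ^ n * (bn N : ℝ) ≤ (1 / F) * (1 / xx) ^ n * bn N := by
            gcongr; exact min_le_right _ _
        _ = (1 / F) * ((1 / xx) ^ n * bn N) := by ring
        _ ≤ (1 / F) * (F * bn (N + n)) := by gcongr
        _ = bn (N + n) := by field_simp
    · have h1 : (bn (N + n) : ℝ) ≤ bn N * bn n := by exact_mod_cast bn_submul N n
      have h2 := hFi n (by omega)
      calc (bn (N + n) : ℝ) ≤ bn N * bn n := h1
        _ ≤ bn N * (F * (1 / xx) ^ n) := by gcongr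
        _ = F * (1 / xx) ^ n * bn N := by ring
        _ ≤ max 19440 F * (1 / xx) ^ n * bn N := by gcongr; exact le_max_right _ _
  · obtain ⟨s1, s2⟩ := hN₀ n N hn hnN (by omega)
    have u1 := hN₁ N (by omega)
    have u2 := hN₁ (N + n) (by omega)
    have l1 := SS_le_bn N
    have l2 := SS_le_bn (N + n)
    have e1 : xx ^ (N + n) = xx ^ n * xx ^ N := by rw [pow_add]; ring
    rw [e1] at u2 l2
    constructor
    · have h1 : 1 / 25920 * (bn N * xx ^ N) ≤ bn (N + n) * xx ^ n * xx ^ N := by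
        rw [mul_assoc (bn (N + n) : ℝ)]
        linarith
      have h2 : 1 / 25920 * (bn N : ℝ) ≤ bn (N + n) * xx ^ n := by
        have h3 : (1 / 25920 * (bn N : ℝ)) * xx ^ N ≤ (bn (N + n) * xx ^ n) * xx ^ N := by linarith
        exact le_of_mul_le_mul_right h3 hxN
      calc min (1 / 25920) (1 / F) * (1 / xx) ^ n * (bn N : ℝ) ≤ 1 / 25920 * (1 / xx) ^ n * bn N := by
            gcongr; exact min_le_left _ _
        _ = (1 / xx) ^ n * (1 / 25920 * bn N) := by ring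
        _ ≤ (1 / xx) ^ n * (bn (N + n) * xx ^ n) := by gcongr
        _ = bn (N + n) := by
            rw [mul_comm (bn (N + n) : ℝ), ← mul_assoc, hyn, one_mul]
    · have h1 : (bn (N + n) * xx ^ n) * xx ^ N ≤ (19440 * (bn N : ℝ)) * xx ^ N := by
        have : (bn (N + n) : ℝ) * (xx ^ n * xx ^ N) = (bn (N + n) * xx ^ n) * xx ^ N := by ring
        linarith
      have h2 : bn (N + n) * xx ^ n ≤ 19440 * (bn N : ℝ) := le_of_mul_le_mul_right h1 hxN
      calc (bn (N + n) : ℝ) = (1 / xx) ^ n * (bn (N + n) * xx ^ n) := by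
            rw [mul_comm (bn (N + n) : ℝ), ← mul_assoc, hyn, one_mul]
        _ ≤ (1 / xx) ^ n * (19440 * bn N) := by gcongr
        _ = 19440 * (1 / xx) ^ n * bn N := by ring
        _ ≤ max 19440 F * (1 / xx) ^ n * bn N := by gcongr; exact le_max_left _ _

end Pool.Agent.RAT.T12
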