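import Pool.Agent.RAT.T12.Pp

/-!
Project RAT, lattice `(3,12^2)`: for `|N - (2 + q) k| ≤ q N / (80 n)` and `160 n^2 ≤ q N` the numbers `pp k N` and
`pp k (N + n)` differ by a factor at most `2`.
-/

namespace Pool.Agent.RAT.T12

open Pool.Agent.Hhelper14.SAW Pool.Agent.Hhelper64.T12 Finset

lemma xx_pos' : 0 < xx := xx_pos

theorem good {k n N : ℕ} (hn : 1 ≤ n) (hbig : 160 * (n : ℝ) ^ 2 ≤ qq * N)
    (hk : |(N : ℝ) - (2 + qq) * k| ≤ qq * N / (80 * n)) :
    1 / 2 * pp k N ≤ pp k (N + n) ∧ pp k (N + n) ≤ 2 * pp k N := by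
  have hq := qq_pos
  have hq1 := qq_lt
  have hx := xx_pos'
  have hx1 : xx < 1 := xx_lt
  have hxq := xq
  have hn1 : (1 : ℝ) ≤ n := by exact_mod_cast hn
  have hn0 : (0 : ℝ) < n := by linarith
  have hk0 : (0 : ℝ) ≤ k := Nat.cast_nonneg _
  set E : ℝ := qq * N / (80 * n) with hE
  -- size of `E`
  have hEn : E * (80 * n) = qq * N := by rw [hE]; field_simp
  have hE2 : 2 * (n : ℝ) ≤ E := by
    rw [hE, le_div_iff₀ (by positivity)]
    nlinarith
  have hE80 : 80 * E ≤ qq * N := by
    rw [← hEn]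
    have : 0 < E := by linarith
    nlinarith
  have hN0 : (0 : ℝ) ≤ N := Nat.cast_nonneg _
  have hEN : 80 * E ≤ N := hE80.trans (by nlinarith)
  obtain ⟨hk1, hk2⟩ := abs_le.1 hk
  -- `k` is large
  have hkN : (N : ℝ) / 4 ≤ k := by nlinarith
  have h2k : 2 * k ≤ N := by
    have : (2 * k : ℝ) ≤ N := by
      have h1 : qq * N / 4 ≤ qq * k := by nlinarith
      nlinarith
    exact_mod_cast this
  -- one step
  have hstep : ∀ i : ℕ, i < n →
      (1 - 1 / (2 * n)) * pp k (N + i) ≤ pp k (N + (i + 1)) ∧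
      pp k (N + (i + 1)) ≤ (1 + 1 / (2 * n)) * pp k (N + i) := by
    intro i hi
    have hin : (i : ℝ) ≤ n := by exact_mod_cast hi.le
    have hi0 : (0 : ℝ) ≤ i := Nat.cast_nonneg _
    have h1 := pp_step (k := k) (N := N + i) (by omega)
    have hp := pp_nonneg k (N + i)
    have hp' := pp_nonneg k (N + (i + 1))
    set e : ℝ := (N : ℝ) + i - (2 + qq) * k with he
    set D : ℝ := qq * k + e + 1 with hD
    have h2 : D * pp k (N + (i + 1)) = (D - ((1 + xx) * e + 1)) * pp k (N + i) := by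
      have e1 : ((N + i : ℕ) : ℝ) + 1 - 2 * k = D := by push_cast; rw [hD, he]; ring
      have e2 : xx * (3 * k - ((N + i : ℕ) : ℝ)) = D - ((1 + xx) * e + 1) := by
        push_cast
        rw [hD, he]
        linear_combination k * hxq
      rw [e1, e2] at h1
      exact h1
    have he1 : -(3 / 2 * E) ≤ e := by rw [he]; linarith
    have he2 : e ≤ 3 / 2 * E := by rw [he]; linarith
    have hE0 : 0 < E := by linarith
    have hD0 : qq * N / 5 ≤ D := by
      have h3 : qq * N / 4 ≤ qq * k := by nlinarith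
      rw [hD]; linarith
    have hDE : 16 * (n * E) ≤ D := by
      have : 16 * (n * E) = qq * N / 5 := by rw [← hEn]; ring
      linarith
    have hDpos : 0 < D := by
      have : 0 < n * E := by positivity
      linarith
    -- the defect
    have ha : |(1 + xx) * e + 1| ≤ 4 * E := by
      rw [abs_le]
      constructor <;> nlinarith
    obtain ⟨ha1, ha2⟩ := abs_le.1 ha
    have hδ : 4 * E ≤ 1 / (2 * n) * D := by
      rw [one_div, ← div_eq_inv_mul, le_div_iff₀ (by positivity)]
      linarith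
    constructor
    · have h3 : (1 - 1 / (2 * n)) * D ≤ D - ((1 + xx) * e + 1) := by nlinarith
      have h4 : D * ((1 - 1 / (2 * n)) * pp k (N + i)) ≤ D * pp k (N + (i + 1)) := by
        rw [h2]
        calc D * ((1 - 1 / (2 * n)) * pp k (N + i)) = ((1 - 1 / (2 * n)) * D) * pp k (N + i) := by ring
          _ ≤ _ := mul_le_mul_of_nonneg_right h3 hp
      exact le_of_mul_le_mul_left h4 hDpos
    · have h3 : D - ((1 + xx) * e + 1) ≤ (1 + 1 / (2 * n)) * D := by nlinarith
      have h4 : D * pp k (N + (i + 1)) ≤ D * ((1 + 1 / (2 * n)) * pp k (N + i)) := by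
        rw [h2]
        calc (D - ((1 + xx) * e + 1)) * pp k (N + i) ≤ ((1 + 1 / (2 * n)) * D) * pp k (N + i) :=
              mul_le_mul_of_nonneg_right h3 hp
          _ = _ := by ring
      exact le_of_mul_le_mul_left h4 hDpos
  have hδ0 : (0 : ℝ) ≤ 1 - 1 / (2 * n) := by
    have : 1 / (2 * (n : ℝ)) ≤ 1 := by
      rw [div_le_one (by positivity)]; linarith
    linarith
  have hind : ∀ i : ℕ, i ≤ n → (1 - 1 / (2 * (n : ℝ))) ^ i * pp k N ≤ pp k (N + i) ∧
      pp k (N + i) ≤ (1 + 1 / (2 * (n : ℝ))) ^ i * pp k N := by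
    intro i
    induction i with
    | zero => intro _; simp
    | succ i ih =>
      intro hi
      obtain ⟨i1, i2⟩ := ih (by omega)
      obtain ⟨s1, s2⟩ := hstep i (by omega)
      constructor
      · refine le_trans ?_ s1
        rw [pow_succ]
        calc (1 - 1 / (2 * (n : ℝ))) ^ i * (1 - 1 / (2 * n)) * pp k N =
              (1 - 1 / (2 * (n : ℝ))) * ((1 - 1 / (2 * n)) ^ i * pp k N) := by ring
          _ ≤ _ := mul_le_mul_of_nonneg_left i1 hδ0
      · refine s2.trans ?_
        rw [pow_succ]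
        calc (1 + 1 / (2 * (n : ℝ))) * pp k (N + i) ≤
              (1 + 1 / (2 * (n : ℝ))) * ((1 + 1 / (2 * n)) ^ i * pp k N) :=
              mul_le_mul_of_nonneg_left i2 (by positivity)
          _ = _ := by ring
  obtain ⟨r1, r2⟩ := hind n le_rfl
  have hp := pp_nonneg k N
  constructor
  · refine le_trans (mul_le_mul_of_nonneg_right ?_ hp) r1
    have h1 := one_add_mul_le_pow (a := -(1 / (2 * (n : ℝ)))) (by linarith) n
    have h2 : 1 + (n : ℝ) * -(1 / (2 * (n : ℝ))) = 1 / 2 := by field_simp; ring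
    rw [h2] at h1
    have h3 : 1 + -(1 / (2 * (n : ℝ))) = 1 - 1 / (2 * n) := by ring
    rwa [h3] at h1
  · refine r2.trans (mul_le_mul_of_nonneg_right ?_ hp)
    have h1 : 1 + 1 / (2 * (n : ℝ)) ≤ Real.exp (1 / (2 * n)) := by
      have := Real.add_one_le_exp (1 / (2 * (n : ℝ)))
      linarith
    refine (pow_le_pow_left₀ (by positivity) h1 n).trans ?_
    rw [← Real.exp_nat_mul]
    have h2 : (n : ℝ) * (1 / (2 * (n : ℝ))) = 1 / 2 := by field_simp
    rw [h2]
    have h3 : Real.exp (1 / 2) ^ 2 ≤ 2 ^ 2 := by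
      rw [← Real.exp_nat_mul]
      have := Real.exp_one_lt_d9
      norm_num
      linarith
    exact (abs_le_of_sq_le_sq' h3 (by norm_num)).2

end Pool.Agent.RAT.T12
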