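import Pool.Agent.Hhelper64.T12.Ana

/-!
Project RAT, lattice `(3,12^2)`: the numbers `pp k n`, the probability that the sum of `k` independent steps equal to
`2` with probability `1 - q` and to `3` with probability `q = mu xx^3` is `n`. The binomial formula, the ratio
`pp k (n+1) / pp k n`, and a Gaussian bound.
-/

namespace Pool.Agent.RAT.T12

open Pool.Agent.Hhelper14.SAW Pool.Agent.Hhelper64.T12 Finset

/-- The probability of a step `3`. -/
noncomputable def qq : ℝ := mu * xx ^ 3

lemma qq_pos : 0 < qq := by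
  have := mu_pos; have := xx_pos
  unfold qq; positivity

lemma qq_one : mu * xx ^ 2 = 1 - qq := by
  have := xx_eq
  unfold qq; linarith

lemma qq_lt : qq < 1 := by
  have h1 := mu_pos; have h2 := xx_pos
  have : 0 < mu * xx ^ 2 := by positivity
  have := qq_one
  linarith

lemma xq : xx * (1 - qq) = qq := by
  rw [← qq_one]; unfold qq; ring

lemma cnt_choose : ∀ k n : ℕ, cnt k n = if 2 * k ≤ n then Nat.choose k (n - 2 * k) else 0
  | 0, n => by
    rw [cnt_zero]
    by_cases h : n = 0
    · subst h; simp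
    · rw [if_neg h, if_pos (by omega)]
      rw [Nat.choose_eq_zero_of_lt (by omega)]
  | k + 1, n => by
    rw [cnt_succ, cnt_choose k (n - 2), cnt_choose k (n - 3)]
    by_cases h : 2 * (k + 1) ≤ n
    · obtain ⟨j, rfl⟩ := Nat.exists_eq_add_of_le h
      rw [if_pos (by omega), if_pos (by omega), if_pos h]
      rw [show 2 * (k + 1) + j - 2 - 2 * k = j by omega, show 2 * (k + 1) + j - 2 * (k + 1) = j by omega]
      cases j with
      | zero =>
        rw [Nat.choose_zero_right, Nat.choose_zero_right]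
        split_ifs with h1 h2
        · omega
        · rfl
        · rfl
      | succ j =>
        rw [if_pos (by omega), if_pos (by omega), show 2 * (k + 1) + (j + 1) - 3 - 2 * k = j by omega,
          Nat.choose_succ_succ]
        ring
    · rw [if_neg h]
      split_ifs <;> first | rfl | omega

lemma choose_step (k j : ℕ) : ((j : ℝ) + 1) * (Nat.choose k (j + 1) : ℝ) = ((k : ℝ) - j) * (Nat.choose k j : ℝ) := by
  rcases le_or_gt j k with h | h
  · have h1 := Nat.choose_succ_right_eq k j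
    have h2 : ((Nat.choose k (j + 1) * (j + 1) : ℕ) : ℝ) = ((Nat.choose k j * (k - j) : ℕ) : ℝ) := by
      rw [h1]
    push_cast [Nat.cast_sub h] at h2
    linarith
  · rw [Nat.choose_eq_zero_of_lt h, Nat.choose_eq_zero_of_lt (by omega)]
    simp

lemma pp_choose (k j : ℕ) : pp k (2 * k + j) = (Nat.choose k j : ℝ) * mu ^ k * xx ^ (2 * k + j) := by
  unfold pp
  rw [cnt_choose, if_pos (by omega), Nat.add_sub_cancel_left]

/-- The ratio of consecutive values. -/
lemma pp_step {k N : ℕ} (h : 2 * k ≤ N) :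
    ((N : ℝ) + 1 - 2 * k) * pp k (N + 1) = xx * (3 * k - N) * pp k N := by
  obtain ⟨j, rfl⟩ := Nat.exists_eq_add_of_le h
  rw [show 2 * k + j + 1 = 2 * k + (j + 1) by ring, pp_choose, pp_choose]
  have h1 := choose_step k j
  have h2 : xx ^ (2 * k + (j + 1)) = xx * xx ^ (2 * k + j) := by ring
  rw [h2]
  push_cast
  linear_combination (mu ^ k * xx * xx ^ (2 * k + j)) * h1

/-- The binomial form. -/
lemma pp_binom {k j : ℕ} (h : j ≤ k) : pp k (2 * k + j) = (Nat.choose k j : ℝ) * (1 - qq) ^ (k - j) * qq ^ j := by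
  rw [pp_choose, ← qq_one]
  unfold qq
  obtain ⟨i, rfl⟩ := Nat.exists_eq_add_of_le h
  rw [Nat.add_sub_cancel_left]
  ring

/-- The Gaussian bound. -/
lemma pp_tail {k N : ℕ} (hk : 1 ≤ k) : pp k N ≤ Real.exp (-(((N : ℝ) - (2 + qq) * k) ^ 2 / (4 * k))) := by
  have hq := qq_pos
  have hq1 := qq_lt
  have hk0 : (0 : ℝ) < k := by exact_mod_cast hk
  rcases Nat.lt_or_ge N (2 * k) with h | h
  · rw [pp_eq_zero h]; exact (Real.exp_pos _).le
  obtain ⟨j, rfl⟩ := Nat.exists_eq_add_of_le h
  rcases Nat.lt_or_ge k j with hj | hj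
  · rw [pp_choose, Nat.choose_eq_zero_of_lt hj]
    simp only [Nat.cast_zero, zero_mul]
    exact (Real.exp_pos _).le
  have hj0 : (j : ℝ) ≤ k := by exact_mod_cast hj
  have hj1 : (0 : ℝ) ≤ j := Nat.cast_nonneg _
  set d : ℝ := (j : ℝ) - qq * k with hd
  have e0 : ((2 * k + j : ℕ) : ℝ) - (2 + qq) * k = d := by push_cast; rw [hd]; ring
  rw [e0]
  set θ : ℝ := d / (2 * k) with hθ
  have hqk : qq * k ≤ k := by nlinarith
  have hqk0 : 0 ≤ qq * k := by positivity
  have hd1 : |d| ≤ k := by rw [abs_le]; constructor <;> linarith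
  have hθ1 : |θ| ≤ 1 := by
    rw [hθ, abs_div, abs_of_pos (show (0 : ℝ) < 2 * k by positivity), div_le_one (by positivity)]
    linarith
  rw [pp_binom hj]
  -- a single term of the binomial expansion
  have h1 : (Nat.choose k j : ℝ) * (1 - qq) ^ (k - j) * (qq * Real.exp θ) ^ j ≤
      (qq * Real.exp θ + (1 - qq)) ^ k := by
    rw [add_pow]
    have hmem : j ∈ range (k + 1) := by rw [mem_range]; omega
    refine le_trans (le_of_eq ?_) (single_le_sum (f := fun m => (qq * Real.exp θ) ^ m * (1 - qq) ^ (k - m) *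
      (Nat.choose k m : ℝ)) (fun m _ => ?_) hmem)
    · ring
    · have : 0 ≤ 1 - qq := by linarith
      positivity
  have h2 : qq * Real.exp θ + (1 - qq) ≤ Real.exp (qq * (θ + θ ^ 2)) := by
    have h3 := Real.abs_exp_sub_one_sub_id_le hθ1
    have h4 := (abs_le.1 h3).2
    have h5 := Real.add_one_le_exp (qq * (θ + θ ^ 2))
    nlinarith
  have h3 : (qq * Real.exp θ + (1 - qq)) ^ k ≤ Real.exp (qq * (θ + θ ^ 2)) ^ k := by
    refine pow_le_pow_left₀ ?_ h2 k
    have := Real.exp_pos θ
    have : 0 ≤ 1 - qq := by linarith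
    positivity
  have h4 : (Nat.choose k j : ℝ) * (1 - qq) ^ (k - j) * qq ^ j =
      Real.exp (-(θ * j)) * ((Nat.choose k j : ℝ) * (1 - qq) ^ (k - j) * (qq * Real.exp θ) ^ j) := by
    rw [mul_pow, ← Real.exp_nat_mul]
    have : Real.exp (-(θ * j)) * Real.exp (j * θ) = 1 := by
      rw [← Real.exp_add]; ring_nf; exact Real.exp_zero
    linear_combination (-(Nat.choose k j : ℝ) * (1 - qq) ^ (k - j) * qq ^ j) * this
  rw [h4]
  calc Real.exp (-(θ * j)) * ((Nat.choose k j : ℝ) * (1 - qq) ^ (k - j) * (qq * Real.exp θ) ^ j)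
      ≤ Real.exp (-(θ * j)) * Real.exp (qq * (θ + θ ^ 2)) ^ k :=
        mul_le_mul_of_nonneg_left (h1.trans h3) (Real.exp_pos _).le
    _ = Real.exp (-(θ * j) + k * (qq * (θ + θ ^ 2))) := by
        rw [← Real.exp_nat_mul, ← Real.exp_add]
    _ ≤ Real.exp (-(d ^ 2 / (4 * k))) := by
        apply Real.exp_le_exp.2
        have e1 : -(θ * j) + k * (qq * (θ + θ ^ 2)) = -(θ * d) + qq * (k * θ ^ 2) := by rw [hd]; ring
        have e2 : θ * d = d ^ 2 / (2 * k) := by rw [hθ]; ring
        have e3 : k * θ ^ 2 = d ^ 2 / (4 * k) := by rw [hθ]; field_simp; ring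
        rw [e1, e2, e3]
        have e4 : 0 ≤ d ^ 2 / (4 * k) := by positivity
        have e5 : d ^ 2 / (2 * k) = 2 * (d ^ 2 / (4 * k)) := by field_simp; ring
        rw [e5]
        nlinarith

end Pool.Agent.RAT.T12
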