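import Pool.Agent.RAT.T12.Good

/-!
Project RAT, lattice `(3,12^2)`: the sums `SS N = Σ_k A_k pp k N`, `A_k = a_k mu^(-k)` (honeycomb), with
`1 ≤ A_k ≤ C (k + 1)^C`: `SS (N + n)` and `SS N` are comparable for `n^5 ≤ N`.
-/

namespace Pool.Agent.RAT.T12

open Pool.Agent.Hhelper14.SAW Pool.Agent.Hhelper64.T12 Finset Filter Topology

/-- The correction factors of the honeycomb lattice. -/
noncomputable def AA (k : ℕ) : ℝ := (an k : ℝ) / mu ^ k

noncomputable def SS (N : ℕ) : ℝ := ∑ k ∈ range (N + 1), AA k * pp k N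

lemma SS_eq {N M : ℕ} (h : N < M) : ∑ k ∈ range M, AA k * pp k N = SS N := by
  unfold SS
  refine (sum_subset (range_subset_range.2 (by omega)) fun k _ hk2 => ?_).symm
  rw [mem_range] at hk2
  rw [pp_eq_zero (by omega), mul_zero]

lemma mu_pow_le (n : ℕ) : mu ^ n ≤ (an n : ℝ) := by
  rcases Nat.eq_zero_or_pos n with rfl | hn
  · rw [pow_zero, an_zero]; norm_num
  · have hbdd : BddBelow (Set.range (fun n : {n : ℕ // 1 ≤ n} =>
        (Pool.Agent.Hhelper14.Honeycomb.a n : ℝ) ^ (1 / ((n : ℕ) : ℝ)))) := by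
      refine ⟨0, ?_⟩
      rintro _ ⟨m, rfl⟩
      exact Real.rpow_nonneg (Nat.cast_nonneg _) _
    have h1 : Pool.Agent.Hhelper14.Honeycomb.muL ≤ (Pool.Agent.Hhelper14.Honeycomb.a n : ℝ) ^ (1 / (n : ℝ)) :=
      ciInf_le hbdd ⟨n, hn⟩
    rw [muL_eq hw_quant, Pool.Agent.Hhelper14.SAW.a_eq] at h1
    have hn0 : (n : ℝ) ≠ 0 := by exact_mod_cast (by omega : n ≠ 0)
    have h2 := pow_le_pow_left₀ mu_pos.le h1 n
    rwa [← Real.rpow_natCast ((an n : ℝ) ^ (1 / (n : ℝ))), ← Real.rpow_mul (Nat.cast_nonneg _),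
      one_div_mul_cancel hn0, Real.rpow_one] at h2

lemma AA_ge (k : ℕ) : 1 ≤ AA k := by
  unfold AA
  rw [one_le_div (pow_pos mu_pos k)]
  exact mu_pow_le k

lemma AA_le (h : ∃ C : ℝ, 0 < C ∧ ∀ n : ℕ, 1 ≤ n → (an n : ℝ) ≤ C * (n : ℝ) ^ C * mu ^ n) :
    ∃ C : ℝ, 1 ≤ C ∧ ∀ k : ℕ, AA k ≤ C * ((k : ℝ) + 1) ^ C := by
  obtain ⟨C, hC, hup⟩ := h
  refine ⟨max C 1, le_max_right _ _, fun k => ?_⟩
  have hk0 : (0 : ℝ) ≤ k := Nat.cast_nonneg _
  have hm1 : 1 ≤ max C 1 := le_max_right _ _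
  unfold AA
  rcases Nat.eq_zero_or_pos k with rfl | hk
  · rw [an_zero]; simp
  · rw [div_le_iff₀ (pow_pos mu_pos k)]
    refine (hup k hk).trans (mul_le_mul_of_nonneg_right ?_ (pow_pos mu_pos k).le)
    have hk1 : (1 : ℝ) ≤ k := by exact_mod_cast hk
    have e1 : (k : ℝ) ^ C ≤ ((k : ℝ) + 1) ^ max C 1 :=
      (Real.rpow_le_rpow hk0 (by linarith) hC.le).trans
        (Real.rpow_le_rpow_of_exponent_le (by linarith) (le_max_left _ _))
    exact mul_le_mul (le_max_left _ _) e1 (by positivity) (by linarith)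

lemma m0_le_SS {N : ℕ} (hN : 2 ≤ N) : m0 ≤ SS N := by
  refine (le_uu N hN).trans ?_
  unfold uu SS
  refine sum_le_sum fun k _ => ?_
  have := AA_ge k
  have := pp_nonneg k N
  nlinarith

/-- The constant of the tails. -/
noncomputable def c3 : ℝ := qq ^ 2 / 102400

lemma c3_pos : 0 < c3 := by
  have := qq_pos
  unfold c3; positivity

theorem tail {k n N : ℕ} (hn : 1 ≤ n) (hN : 1 ≤ N) (hbig : 160 * (n : ℝ) ^ 2 ≤ qq * N)
    (hk : qq * N / (80 * n) < |(N : ℝ) - (2 + qq) * k|) :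
    pp k N ≤ Real.exp (-(c3 * (N / (n : ℝ) ^ 2))) ∧ pp k (N + n) ≤ Real.exp (-(c3 * (N / (n : ℝ) ^ 2))) := by
  have hq := qq_pos
  have hq1 := qq_lt
  have hn1 : (1 : ℝ) ≤ n := by exact_mod_cast hn
  have hn0 : (0 : ℝ) < n := by linarith
  have hN1 : (1 : ℝ) ≤ N := by exact_mod_cast hN
  have hN0 : (0 : ℝ) < N := by linarith
  rcases Nat.eq_zero_or_pos k with rfl | hk1
  · rw [pp_zero, pp_zero, if_neg (by omega), if_neg (by omega)]
    exact ⟨(Real.exp_pos _).le, (Real.exp_pos _).le⟩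
  have hk0 : (0 : ℝ) < k := by exact_mod_cast hk1
  set E : ℝ := qq * N / (80 * n) with hE
  have hE2 : 2 * (n : ℝ) ≤ E := by
    rw [hE, le_div_iff₀ (by positivity)]
    nlinarith
  have hE0 : 0 < E := by linarith
  have hnN : (n : ℝ) ≤ N := by nlinarith
  have hE3 : E ^ 2 / (16 * N) = c3 * (N / (n : ℝ) ^ 2) := by
    rw [hE, c3]; field_simp; ring
  constructor
  · rcases Nat.lt_or_ge N (2 * k) with h | h
    · rw [pp_eq_zero h]; exact (Real.exp_pos _).le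
    · refine (pp_tail hk1).trans (Real.exp_le_exp.2 (neg_le_neg ?_))
      rw [← hE3]
      have h2 : (2 * k : ℝ) ≤ N := by exact_mod_cast h
      have h3 : E ^ 2 ≤ ((N : ℝ) - (2 + qq) * k) ^ 2 := by
        rw [← sq_abs ((N : ℝ) - (2 + qq) * k)]
        exact pow_le_pow_left₀ hE0.le hk.le 2
      exact div_le_div₀ (by positivity) h3 (by positivity) (by linarith)
  · rcases Nat.lt_or_ge (N + n) (2 * k) with h | h
    · rw [pp_eq_zero h]; exact (Real.exp_pos _).le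
    · refine (pp_tail hk1).trans (Real.exp_le_exp.2 (neg_le_neg ?_))
      rw [← hE3]
      have h2 : (2 * k : ℝ) ≤ N + n := by exact_mod_cast h
      have h3 : (E / 2) ^ 2 ≤ (((N + n : ℕ) : ℝ) - (2 + qq) * k) ^ 2 := by
        rw [← sq_abs (((N + n : ℕ) : ℝ) - (2 + qq) * k)]
        refine pow_le_pow_left₀ (by positivity) ?_ 2
        push_cast
        have h4 : |(N : ℝ) - (2 + qq) * k| ≤ |(N : ℝ) + n - (2 + qq) * k| + n := by
          have h5 := abs_add_le ((N : ℝ) + n - (2 + qq) * k) (-n)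
          rw [abs_neg, abs_of_pos hn0] at h5
          have h6 : (N : ℝ) + n - (2 + qq) * k + -n = N - (2 + qq) * k := by ring
          rwa [h6] at h5
        linarith
      have h5 : E ^ 2 / (16 * N) = (E / 2) ^ 2 / (4 * N) := by field_simp; ring
      rw [h5]
      exact div_le_div₀ (by positivity) h3 (by positivity) (by linarith)

/-- The tails are eventually small. -/
lemma small (C : ℝ) (hC : 1 ≤ C) : ∃ N₀ : ℕ, ∀ N : ℕ, N₀ ≤ N →
    3 * (N : ℝ) * (C * (3 * (N : ℝ)) ^ C * Real.exp (-(c3 * (N : ℝ) ^ (3 / 5 : ℝ)))) ≤ m0 / 2 := by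
  have hm := m0_pos
  have h1 := tendsto_rpow_mul_exp_neg_mul_atTop_nhds_zero (5 / 3 * (C + 1)) c3 c3_pos
  have h2 : Tendsto (fun N : ℕ => (N : ℝ) ^ (3 / 5 : ℝ)) atTop atTop :=
    (tendsto_rpow_atTop (by norm_num)).comp tendsto_natCast_atTop_atTop
  have h3 := (h1.comp h2).const_mul (3 * C * 3 ^ C)
  rw [mul_zero] at h3
  have h4 : 0 < m0 / 2 := by positivity
  obtain ⟨N₀, h5⟩ := (h3.eventually (gt_mem_nhds h4)).exists_forall_of_atTop
  refine ⟨N₀ + 1, fun N hN => ?_⟩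
  have hN0 : (0 : ℝ) < N := by exact_mod_cast (by omega : 0 < N)
  refine le_trans (le_of_eq ?_) (h5 N (by omega)).le
  simp only [Function.comp_apply]
  rw [← Real.rpow_mul hN0.le, Real.mul_rpow (by norm_num) hN0.le]
  have e1 : (3 / 5 : ℝ) * (5 / 3 * (C + 1)) = C + 1 := by ring
  rw [e1, Real.rpow_add hN0, Real.rpow_one]
  ring_nf

theorem SS_cmp (h : ∃ C : ℝ, 0 < C ∧ ∀ n : ℕ, 1 ≤ n → (an n : ℝ) ≤ C * (n : ℝ) ^ C * mu ^ n) :
    ∃ N₀ : ℕ, ∀ n N : ℕ, 1 ≤ n → n ^ 5 ≤ N → N₀ ≤ N → 1 / 4 * SS N ≤ SS (N + n) ∧ SS (N + n) ≤ 3 * SS N := by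
  obtain ⟨C, hC, hA⟩ := AA_le h
  obtain ⟨N₁, hN₁⟩ := small C hC
  have hq := qq_pos
  -- `160 n^2 ≤ q N` for large `N`
  obtain ⟨N₂, hN₂⟩ : ∃ N₂ : ℕ, ∀ N : ℕ, N₂ ≤ N → 160 ≤ qq * (N : ℝ) ^ (3 / 5 : ℝ) := by
    have h2 : Tendsto (fun N : ℕ => qq * (N : ℝ) ^ (3 / 5 : ℝ)) atTop atTop :=
      ((tendsto_rpow_atTop (by norm_num)).comp tendsto_natCast_atTop_atTop).const_mul_atTop hq
    exact (h2.eventually (eventually_ge_atTop 160)).exists_forall_of_atTop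
  refine ⟨N₁ + N₂ + 2, fun n N hn hnN hN => ?_⟩
  have hN1 : 1 ≤ N := by omega
  have hN0 : (0 : ℝ) < N := by exact_mod_cast (by omega : 0 < N)
  have hn1 : (1 : ℝ) ≤ n := by exact_mod_cast hn
  have hn0 : (0 : ℝ) < n := by linarith
  -- `N^(3/5) ≤ N / n^2`
  have hn5 : (n : ℝ) ≤ (N : ℝ) ^ (1 / 5 : ℝ) := by
    have h1 : ((n : ℝ) ^ (5 : ℕ)) ≤ N := by exact_mod_cast hnN
    have h2 := Real.rpow_le_rpow (by positivity) h1 (show (0 : ℝ) ≤ 1 / 5 by norm_num)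
    rwa [← Real.rpow_natCast, ← Real.rpow_mul hn0.le, show ((5 : ℕ) : ℝ) * (1 / 5) = 1 by norm_num,
      Real.rpow_one] at h2
  have hn2 : (N : ℝ) ^ (3 / 5 : ℝ) * (n : ℝ) ^ 2 ≤ N := by
    have h1 : (n : ℝ) ^ 2 ≤ (N : ℝ) ^ (2 / 5 : ℝ) := by
      refine (pow_le_pow_left₀ hn0.le hn5 2).trans (le_of_eq ?_)
      rw [← Real.rpow_natCast, ← Real.rpow_mul hN0.le]
      norm_num
    calc (N : ℝ) ^ (3 / 5 : ℝ) * (n : ℝ) ^ 2 ≤ (N : ℝ) ^ (3 / 5 : ℝ) * (N : ℝ) ^ (2 / 5 : ℝ) :=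
          mul_le_mul_of_nonneg_left h1 (by positivity)
      _ = N := by rw [← Real.rpow_add hN0]; norm_num
  have hbig : 160 * (n : ℝ) ^ 2 ≤ qq * N := by
    have h1 := hN₂ N (by omega)
    calc 160 * (n : ℝ) ^ 2 ≤ qq * (N : ℝ) ^ (3 / 5 : ℝ) * (n : ℝ) ^ 2 :=
          mul_le_mul_of_nonneg_right h1 (by positivity)
      _ = qq * ((N : ℝ) ^ (3 / 5 : ℝ) * (n : ℝ) ^ 2) := by ring
      _ ≤ qq * N := mul_le_mul_of_nonneg_left hn2 hq.le
  have hdiv : (N : ℝ) ^ (3 / 5 : ℝ) ≤ N / (n : ℝ) ^ 2 := by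
    rw [le_div_iff₀ (by positivity)]; exact hn2
  have hnN' : n ≤ N := (Nat.le_self_pow (by norm_num) n).trans hnN
  -- the good and the bad `k`
  set T : ℝ := 3 * (N : ℝ) * (C * (3 * (N : ℝ)) ^ C * Real.exp (-(c3 * (N : ℝ) ^ (3 / 5 : ℝ)))) with hT
  have hT2 : T ≤ m0 / 2 := hN₁ N (by omega)
  have hT0 : 0 ≤ T := by positivity
  set K := range (N + n + 1) with hK
  set G := K.filter (fun k : ℕ => |(N : ℝ) - (2 + qq) * k| ≤ qq * N / (80 * n)) with hG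
  set B := K.filter (fun k : ℕ => ¬ |(N : ℝ) - (2 + qq) * k| ≤ qq * N / (80 * n)) with hB
  have hsplit : ∀ f : ℕ → ℝ, ∑ k ∈ K, f k = ∑ k ∈ G, f k + ∑ k ∈ B, f k := fun f =>
    (sum_filter_add_sum_filter_not K _ f).symm
  have hAK : ∀ k ∈ B, AA k ≤ C * (3 * (N : ℝ)) ^ C := by
    intro k hk
    have hk1 : k ∈ K := (mem_filter.1 hk).1
    rw [hK, mem_range] at hk1
    refine (hA k).trans ?_
    have h1 : (k : ℝ) + 1 ≤ 3 * N := by
      have h2 : k + 1 ≤ 3 * N := by omega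
      exact_mod_cast h2
    gcongr
  have hcardB : (B.card : ℝ) ≤ 3 * N := by
    have h1 : B.card ≤ K.card := card_filter_le _ _
    rw [hK, card_range] at h1
    have h2 : B.card ≤ 3 * N := by omega
    exact_mod_cast h2
  have hBsum : ∀ M : ℕ, (M = N ∨ M = N + n) → ∑ k ∈ B, AA k * pp k M ≤ T := by
    intro M hM
    have h1 : ∀ k ∈ B, AA k * pp k M ≤ C * (3 * (N : ℝ)) ^ C * Real.exp (-(c3 * (N : ℝ) ^ (3 / 5 : ℝ))) := by
      intro k hk
      have hk2 := (mem_filter.1 hk).2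
      rw [not_le] at hk2
      obtain ⟨t1, t2⟩ := tail hn hN1 hbig hk2
      have h3 : Real.exp (-(c3 * (N / (n : ℝ) ^ 2))) ≤ Real.exp (-(c3 * (N : ℝ) ^ (3 / 5 : ℝ))) :=
        Real.exp_le_exp.2 (neg_le_neg (mul_le_mul_of_nonneg_left hdiv c3_pos.le))
      have h4 : pp k M ≤ Real.exp (-(c3 * (N : ℝ) ^ (3 / 5 : ℝ))) := by
        rcases hM with rfl | rfl
        · exact t1.trans h3
        · exact t2.trans h3
      exact mul_le_mul (hAK k hk) h4 (pp_nonneg _ _) (by positivity)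
    refine (sum_le_card_nsmul _ _ _ h1).trans ?_
    rw [nsmul_eq_mul, hT]
    exact mul_le_mul_of_nonneg_right hcardB (by positivity)
  have hBpos : ∀ M : ℕ, 0 ≤ ∑ k ∈ B, AA k * pp k M := fun M =>
    sum_nonneg fun k _ => mul_nonneg (zero_le_one.trans (AA_ge k)) (pp_nonneg _ _)
  have hSN : SS N = ∑ k ∈ G, AA k * pp k N + ∑ k ∈ B, AA k * pp k N := by
    rw [← hsplit, hK, SS_eq (by omega)]
  have hSn : SS (N + n) = ∑ k ∈ G, AA k * pp k (N + n) + ∑ k ∈ B, AA k * pp k (N + n) := by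
    rw [← hsplit]; rfl
  have hg1 : 1 / 2 * ∑ k ∈ G, AA k * pp k N ≤ ∑ k ∈ G, AA k * pp k (N + n) := by
    rw [mul_sum]
    refine sum_le_sum fun k hk => ?_
    have h1 := (good hn hbig (mem_filter.1 hk).2).1
    have h2 := AA_ge k
    nlinarith
  have hg2 : ∑ k ∈ G, AA k * pp k (N + n) ≤ 2 * ∑ k ∈ G, AA k * pp k N := by
    rw [mul_sum]
    refine sum_le_sum fun k hk => ?_
    have h1 := (good hn hbig (mem_filter.1 hk).2).2
    have h2 := AA_ge k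
    nlinarith
  have hb1 := hBsum N (Or.inl rfl)
  have hb2 := hBsum (N + n) (Or.inr rfl)
  have hb3 := hBpos N
  have hb4 := hBpos (N + n)
  have hm := m0_le_SS (N := N) (by omega)
  constructor
  · rw [hSn]
    linarith
  · rw [hSn]
    linarith

end Pool.Agent.RAT.T12
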